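import Pool.Agent.H18.Klein2

open Set Topology

namespace Pool.Agent.Results.MP_ffafe4_gt.Klein

/-- The subgroup `G = ⋂_{k ≥ 1} im φ^k` of an endomorphism `φ` of a group. -/
def stableImage {P : Type} [Group P] (φ : Monoid.End P) : Subgroup P :=
  ⨅ k : ℕ, MonoidHom.range (φ ^ (k + 1) : Monoid.End P)

/-- `G` is a finitely presented normal subgroup of `P`, and the quotient `Q = P / G` has an element of
order two and nonzero cohomology `H^n(Q; ℤ/2)` (trivial `ℤ[Q]`-module `ℤ/2`) in every degree `n`. -/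
def BadQuotient {P : Type} [Group P] (G : Subgroup P) : Prop :=
  ∃ _ : G.Normal, Group.IsFinitelyPresented G ∧ (∃ a : P ⧸ G, a ≠ 1 ∧ a ^ 2 = 1) ∧
    ∀ n : ℕ, Nontrivial (groupCohomology (Rep.trivial ℤ (P ⧸ G) (ZMod 2)) n)

/-- `X` is a finite CW complex. -/
def IsFiniteCW (X : Type) [TopologicalSpace X] : Prop :=
  T2Space X ∧ ∃ _ : CWComplex (univ : Set X), CWComplex.Finite (univ : Set X)

theorem result : ∃ (X X' : Type) (_ : TopologicalSpace X) (_ : TopologicalSpace X')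
    (x₀ : X) (q : C(X', X)) (h : X ≃ₜ X') (hx : (q.comp (h : C(X, X'))) x₀ = x₀),
    IsFiniteCW X ∧ PathConnectedSpace X ∧ IsCoveringMap q ∧ (∀ x, (q ⁻¹' {x}).ncard = 3) ∧
      BadQuotient (stableImage (FundamentalGroup.mapOfEq (q.comp (h : C(X, X'))) hx)) := by
  refine ⟨H18.Klein.X, H18.Klein.X, inferInstance, inferInstance, H18.Klein.x0, H18.Klein.q,
    Homeomorph.refl _, H18.Klein.q_x0, ⟨inferInstance, ?_⟩, inferInstance, H18.Klein.q_cov,
    H18.Klein.q_fiber, ?_⟩
  · obtain ⟨c, ⟨hc⟩⟩ := H18.Klein.exists_cw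
    exact ⟨c, hc⟩
  · refine H18.Klein.abstract H18.Klein.theta _ fun x => ?_
    rw [← H18.Klein.mem_iff _ H18.Klein.theta
      (H18.Klein.theta_nat (H18.Klein.q.comp (Homeomorph.refl H18.Klein.X : C(H18.Klein.X, H18.Klein.X))) (fun _ => rfl)
        H18.Klein.q_x0)]
    simp only [stableImage, Subgroup.mem_iInf, MonoidHom.mem_range, mem_range]
    constructor
    · intro h j hj
      obtain ⟨k, rfl⟩ := Nat.exists_eq_add_of_le' hj
      obtain ⟨y, hy⟩ := h k
      exact ⟨y, by rw [← hy]; exact (congrFun (Monoid.End.coe_pow _ _ _) y).symm⟩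
    · intro h k
      obtain ⟨y, hy⟩ := h (k + 1) (by omega)
      exact ⟨y, by rw [← hy]; exact congrFun (Monoid.End.coe_pow _ _ _) y⟩

end Pool.Agent.Results.MP_ffafe4_gt.Klein
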